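import Pool.Agent.Helper185.SilverBasic

/-!
Uniform trees on the Cantor space, given by a set of free coordinates and a rule for the
other coordinates.
-/

namespace Pool.Agent.W912.BG

set_option linter.unusedSectionVars false

open Set Filter Topology
open Pool.Agent.Helper185.Silver (Z exists_agree isOpen_agree isOpen_of_agree dense_iff_agree beg)

/-- conditions: a set of free coordinates, and for every other coordinate a rule which gives the
value at this coordinate in terms of the values before it -/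
abbrev Cond := Set ℕ × (ℕ → Z → Bool)

/-- the almost-order of conditions -/
def Le (q p : Cond) : Prop := ∃ N, ∀ n, N ≤ n → n ∉ p.1 → n ∉ q.1 ∧ q.2 n = p.2 n

theorem Le.refl (p : Cond) : Le p p := ⟨0, fun _ _ h => ⟨h, rfl⟩⟩

theorem Le.trans {r q p : Cond} (h : Le r q) (h' : Le q p) : Le r p := by
  obtain ⟨N, hN⟩ := h
  obtain ⟨M, hM⟩ := h'
  refine ⟨max N M, fun n hn hp => ?_⟩
  have h1 := hM n (le_of_max_le_right hn) hp
  have h2 := hN n (le_of_max_le_left hn) h1.1
  exact ⟨h2.1, h2.2.trans h1.2⟩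

/-- the points almost compatible with a condition -/
def Near (p : Cond) (x : Z) : Prop := ∃ N, ∀ n, N ≤ n → n ∉ p.1 → x n = p.2 n (beg n x)

theorem Near.mono {q p : Cond} {x : Z} (h : Near q x) (h' : Le q p) : Near p x := by
  obtain ⟨N, hN⟩ := h
  obtain ⟨M, hM⟩ := h'
  refine ⟨max N M, fun n hn hp => ?_⟩
  have h1 := hM n (le_of_max_le_right hn) hp
  rw [hN n (le_of_max_le_left hn) h1.1, h1.2]

open Classical in
/-- the point which is `w` below `L` and on the free coordinates, and obeys the rule elsewhere -/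
noncomputable def Phi (p : Cond) (L : ℕ) (w : Z) (k : ℕ) : Bool :=
  if k < L ∨ k ∈ p.1 then w k else p.2 k (fun n => if n < k then Phi p L w n else false)
termination_by k

theorem Phi_of {p : Cond} {L k : ℕ} (h : k < L ∨ k ∈ p.1) (w : Z) : Phi p L w k = w k := by
  rw [Phi, if_pos h]

theorem Phi_of_not {p : Cond} {L k : ℕ} (h : ¬ (k < L ∨ k ∈ p.1)) (w : Z) :
    Phi p L w k = p.2 k (beg k (Phi p L w)) := by
  rw [Phi, if_neg h]
  rfl

theorem beg_congr {k : ℕ} {x y : Z} (h : ∀ n < k, x n = y n) : beg k x = beg k y := by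
  funext n
  unfold beg
  by_cases hn : n < k
  · rw [if_pos hn, if_pos hn, h n hn]
  · rw [if_neg hn, if_neg hn]

theorem Phi_congr {p : Cond} {L N : ℕ} {w w' : Z} (h : ∀ n < N, w n = w' n) :
    ∀ k < N, Phi p L w k = Phi p L w' k := by
  intro k
  induction k using Nat.strong_induction_on with
  | _ k ih =>
    intro hk
    by_cases hc : k < L ∨ k ∈ p.1
    · rw [Phi_of hc, Phi_of hc, h k hk]
    · rw [Phi_of_not hc, Phi_of_not hc, beg_congr (fun n hn => ih n hn (hn.trans hk))]

theorem Phi_unique {p : Cond} {L : ℕ} {w y : Z} (h1 : ∀ k, k < L ∨ k ∈ p.1 → y k = w k)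
    (h2 : ∀ k, ¬ (k < L ∨ k ∈ p.1) → y k = p.2 k (beg k y)) : Phi p L w = y := by
  funext k
  induction k using Nat.strong_induction_on with
  | _ k ih =>
    by_cases hc : k < L ∨ k ∈ p.1
    · rw [Phi_of hc, h1 k hc]
    · rw [Phi_of_not hc, h2 k hc, beg_congr (fun n hn => ih n hn)]

theorem continuous_of_local {f : Z → Z} (h : ∀ (w w' : Z) (N : ℕ), (∀ n < N, w n = w' n) →
    ∀ n < N, f w n = f w' n) : Continuous f := by
  rw [continuous_def]
  intro O hO
  apply isOpen_of_agree
  intro x hx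
  obtain ⟨N, hN⟩ := exists_agree hO hx
  exact ⟨N, fun y hy => hN _ (h y x N hy)⟩

theorem continuous_Phi (p : Cond) (L : ℕ) : Continuous (Phi p L) :=
  continuous_of_local (fun _ _ _ h => Phi_congr h)

/-- tuples of points, indexed by the binary strings of length `L` -/
abbrev E (L : ℕ) := (Fin L → Bool) → Z

/-- `s` below `L`, and `w` from `L` on -/
def put {L : ℕ} (s : Fin L → Bool) (w : Z) : Z := fun n => if h : n < L then s ⟨n, h⟩ else w n

theorem put_lt {L k : ℕ} (s : Fin L → Bool) (w : Z) (h : k < L) : put s w k = s ⟨k, h⟩ := by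
  unfold put
  rw [dif_pos h]

theorem put_ge {L k : ℕ} (s : Fin L → Bool) (w : Z) (h : L ≤ k) : put s w k = w k := by
  unfold put
  rw [dif_neg (not_lt.2 h)]

theorem continuous_put {L : ℕ} (s : Fin L → Bool) : Continuous (put s) := by
  apply continuous_of_local
  intro w w' N h n hn
  by_cases hL : n < L
  · rw [put_lt _ _ hL, put_lt _ _ hL]
  · rw [put_ge _ _ (not_lt.1 hL), put_ge _ _ (not_lt.1 hL), h n hn]

theorem agreeE {L : ℕ} {O : Set (E L)} (hO : IsOpen O) {x : E L} (hx : x ∈ O) :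
    ∃ N : ℕ, ∀ y : E L, (∀ s, ∀ n < N, y s n = x s n) → y ∈ O := by
  obtain ⟨I, u, hu, hIO⟩ := isOpen_pi_iff.1 hO x hx
  have h1 : ∀ s, ∃ N : ℕ, s ∈ I → ∀ y : Z, (∀ n < N, y n = x s n) → y ∈ u s := by
    intro s
    by_cases hs : s ∈ I
    · obtain ⟨N, hN⟩ := exists_agree (hu s hs).1 (hu s hs).2
      exact ⟨N, fun _ => hN⟩
    · exact ⟨0, fun h => absurd h hs⟩
  choose N hN using h1
  refine ⟨I.sup N, fun y hy => hIO ?_⟩
  intro s hs
  exact hN s hs (y s) (fun n hn => hy s n (lt_of_lt_of_le hn (Finset.le_sup hs)))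

theorem isOpen_agreeE {L : ℕ} (x : E L) (N : ℕ) :
    IsOpen {y : E L | ∀ s, ∀ n < N, y s n = x s n} := by
  have : {y : E L | ∀ s, ∀ n < N, y s n = x s n} =
      ⋂ s, (fun y : E L => y s) ⁻¹' {z : Z | ∀ n < N, z n = x s n} := by
    ext y; simp
  rw [this]
  exact isOpen_iInter_of_finite (fun s => (isOpen_agree (x s) N).preimage (continuous_apply s))

theorem dense_iff_agreeE {L : ℕ} {O : Set (E L)} :
    Dense O ↔ ∀ (x : E L) (N : ℕ), ∃ y ∈ O, ∀ s, ∀ n < N, y s n = x s n := by
  constructor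
  · intro h x N
    obtain ⟨y, hy, hyO⟩ := h.inter_open_nonempty _ (isOpen_agreeE x N) ⟨x, fun _ _ _ => rfl⟩
    exact ⟨y, hyO, hy⟩
  · intro h
    rw [dense_iff_inter_open]
    rintro U hU ⟨x, hx⟩
    obtain ⟨N, hN⟩ := agreeE hU hx
    obtain ⟨y, hyO, hy⟩ := h x N
    exact ⟨y, hN y hy, hyO⟩

/-- decreasing sequence of open dense sets inside a residual set -/
theorem exists_dense_seqE {L : ℕ} {S : Set (E L)} (hS : S ∈ residual (E L)) :
    ∃ G : ℕ → Set (E L), (∀ k, IsOpen (G k)) ∧ (∀ k, Dense (G k)) ∧ Antitone G ∧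
      ∀ w, (∀ k, w ∈ G k) → w ∈ S := by
  obtain ⟨T, hTo, hTd, hTc, hTS⟩ := mem_residual_iff.1 hS
  obtain ⟨f, hf⟩ : ∃ f : ℕ → Set (E L), insert univ T = range f :=
    (hTc.insert univ).exists_eq_range (insert_nonempty _ _)
  have hfT : ∀ k, IsOpen (f k) ∧ Dense (f k) := by
    intro k
    have : f k ∈ insert univ T := by rw [hf]; exact mem_range_self k
    rcases this with h | h
    · rw [h]; exact ⟨isOpen_univ, dense_univ⟩
    · exact ⟨hTo _ h, hTd _ h⟩
  refine ⟨fun k => ⋂ j ∈ {j | j ≤ k}, f j, ?_, ?_, ?_, ?_⟩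
  · intro k
    exact (finite_le_nat k).isOpen_biInter (fun j _ => (hfT j).1)
  · intro k
    exact dense_biInter_of_isOpen (fun j _ => (hfT j).1) (finite_le_nat k).countable
      (fun j _ => (hfT j).2)
  · intro k l hkl x hx
    simp only [mem_iInter, mem_ofPred_eq] at hx ⊢
    intro j hj
    exact hx j (hj.trans hkl)
  · intro w hw
    apply hTS
    intro t ht
    have : t ∈ range f := by rw [← hf]; exact mem_insert_of_mem _ ht
    obtain ⟨k, rfl⟩ := this
    have := hw k
    simp only [mem_iInter, mem_ofPred_eq] at this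
    exact this k le_rfl

/-- the tuple of the points given by a tuple of parameters -/
noncomputable def PhiE (p : Cond) (L : ℕ) (w : E L) : E L := fun s => Phi p L (put s (w s))

theorem continuous_PhiE (p : Cond) (L : ℕ) : Continuous (PhiE p L) := by
  apply continuous_pi
  intro s
  exact (continuous_Phi p L).comp ((continuous_put s).comp (continuous_apply s))

theorem PhiE_lt {p : Cond} {L k : ℕ} (w : E L) (s : Fin L → Bool) (h : k < L) :
    PhiE p L w s k = s ⟨k, h⟩ := by
  unfold PhiE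
  rw [Phi_of (Or.inl h), put_lt _ _ h]

theorem PhiE_rule {p : Cond} {L k : ℕ} (w : E L) (s : Fin L → Bool) (h : L ≤ k) (hk : k ∉ p.1) :
    PhiE p L w s k = p.2 k (beg k (PhiE p L w s)) := by
  unfold PhiE
  rw [Phi_of_not]
  rintro (h' | h')
  · omega
  · exact hk h'

theorem near_PhiE (p : Cond) (L : ℕ) (w : E L) (s : Fin L → Bool) : Near p (PhiE p L w s) :=
  ⟨L, fun _ hk hkp => PhiE_rule w s hk hkp⟩

/-- generic tuples avoid a countable set -/
theorem fresh {p : Cond} (hA : p.1.Infinite) (L : ℕ) {C : Set Z} (hC : C.Countable) :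
    ∀ᶠ w in residual (E L), ∀ s, PhiE p L w s ∉ C := by
  have h1 : ∀ z ∈ C, ∀ s, ∀ᶠ w in residual (E L), PhiE p L w s ≠ z := by
    intro z _ s
    obtain ⟨a, haA, ha⟩ := hA.exists_gt L
    have hd : Dense {w : E L | ∃ k, L ≤ k ∧ k ∈ p.1 ∧ w s k ≠ z k} := by
      rw [dense_iff_agreeE]
      intro x N
      obtain ⟨b, hbA, hb⟩ := hA.exists_gt (max L N)
      refine ⟨fun t k => if k = b then !(z b) else x t k, ⟨b, by omega, hbA, by simp⟩, ?_⟩
      intro t n hn
      have : n ≠ b := by omega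
      simp [this]
    have ho : IsOpen {w : E L | ∃ k, L ≤ k ∧ k ∈ p.1 ∧ w s k ≠ z k} := by
      have : {w : E L | ∃ k, L ≤ k ∧ k ∈ p.1 ∧ w s k ≠ z k} =
          ⋃ k, ⋃ (_ : L ≤ k ∧ k ∈ p.1), (fun w : E L => w s k) ⁻¹' {z k}ᶜ := by
        ext w
        simp only [mem_ofPred_eq, mem_iUnion, mem_preimage, mem_compl_iff, mem_singleton_iff,
          exists_prop, and_assoc]
      rw [this]
      refine isOpen_iUnion (fun k => isOpen_iUnion (fun _ => ?_))
      exact (isOpen_discrete _).preimage ((continuous_apply k).comp (continuous_apply s))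
    filter_upwards [residual_of_dense_open ho hd] with w hw hwz
    obtain ⟨k, hk1, hk2, hk3⟩ := hw
    apply hk3
    rw [← hwz]
    unfold PhiE
    rw [Phi_of (Or.inr hk2), put_ge _ _ hk1]
  have h2 : ∀ᶠ w in residual (E L), ∀ z ∈ C, ∀ s, PhiE p L w s ≠ z := by
    rw [eventually_countable_ball hC]
    intro z hz
    rw [eventually_countable_forall]
    intro s
    exact h1 z hz s
  filter_upwards [h2] with w hw s hs
  exact hw _ hs s rfl

end Pool.Agent.W912.BG
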