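import Pool.Agent.W912.BG.Basic

/-!
The dichotomy: either generic tuples leave all sets of some row, or there is a stronger condition
all of whose tuples stay in sets of all rows.
-/

namespace Pool.Agent.W912.BG

set_option linter.unusedSectionVars false

open Set Filter Topology
open Pool.Agent.Helper185.Silver (Z exists_agree isOpen_agree isOpen_of_agree dense_iff_agree beg)

/-- the first `K` bits of a point -/
def restr (K : ℕ) (z : Z) : Fin K → Bool := fun i => z i

open Classical in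
/-- the tuple `V`, where from `K` on the points with index in the range of `ι` are replaced by the
points of the tuple `w` -/
noncomputable def upd {J K : ℕ} (ι : (Fin J → Bool) → (Fin K → Bool)) (V : E K) (w : E J) : E K :=
  fun s k => if k < K then V s k else Function.extend ι (fun σ => w σ k) (fun t => V t k) s

theorem upd_lt {J K k : ℕ} (ι : (Fin J → Bool) → (Fin K → Bool)) (V : E K) (w : E J)
    (s : Fin K → Bool) (h : k < K) : upd ι V w s k = V s k := by
  unfold upd
  rw [if_pos h]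

theorem upd_ι {J K k : ℕ} {ι : (Fin J → Bool) → (Fin K → Bool)} (hι : Function.Injective ι)
    (V : E K) (w : E J) (σ : Fin J → Bool) (h : K ≤ k) : upd ι V w (ι σ) k = w σ k := by
  unfold upd
  rw [if_neg (not_lt.2 h), hι.extend_apply]

theorem upd_agree {J K N : ℕ} {ι : (Fin J → Bool) → (Fin K → Bool)} (hι : Function.Injective ι)
    {V : E K} {w : E J} (h : ∀ σ, ∀ k, K ≤ k → k < N → w σ k = V (ι σ) k) :
    ∀ s, ∀ k < N, upd ι V w s k = V s k := by
  intro s k hk
  by_cases hK : k < K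
  · exact upd_lt _ _ _ _ hK
  · by_cases hs : ∃ σ, ι σ = s
    · obtain ⟨σ, rfl⟩ := hs
      rw [upd_ι hι _ _ _ (not_lt.1 hK)]
      exact h σ k (not_lt.1 hK) hk
    · unfold upd
      rw [if_neg hK, Function.extend_apply' _ _ _ hs]

/-- the selected tuple -/
def sel {J K : ℕ} (ι : (Fin J → Bool) → (Fin K → Bool)) (e : (Fin J → Bool) → (Fin K → Bool))
    (V : E K) : E J := fun σ => put (e σ) (V (ι σ))

theorem continuous_sel {J K : ℕ} (ι : (Fin J → Bool) → (Fin K → Bool))
    (e : (Fin J → Bool) → (Fin K → Bool)) : Continuous (sel ι e) := by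
  apply continuous_pi
  intro σ
  exact (continuous_put (e σ)).comp (continuous_apply (ι σ))

theorem sel_upd {J K : ℕ} {ι : (Fin J → Bool) → (Fin K → Bool)} (hι : Function.Injective ι)
    {e : (Fin J → Bool) → (Fin K → Bool)} (V : E K) {w : E J}
    (he : ∀ σ, ∀ k (h : k < K), w σ k = e σ ⟨k, h⟩) : sel ι e (upd ι V w) = w := by
  funext σ k
  unfold sel
  by_cases hK : k < K
  · rw [put_lt _ _ hK, he σ k hK]
  · rw [put_ge _ _ (not_lt.1 hK), upd_ι hι _ _ _ (not_lt.1 hK)]

theorem dense_sel {J K : ℕ} {ι : (Fin J → Bool) → (Fin K → Bool)} (hι : Function.Injective ι)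
    (e : (Fin J → Bool) → (Fin K → Bool)) {D : Set (E J)} (hD : Dense D) :
    Dense (sel ι e ⁻¹' D) := by
  rw [dense_iff_agreeE] at hD ⊢
  intro V N
  obtain ⟨w, hwD, hw⟩ := hD (sel ι e V) (max N K)
  refine ⟨upd ι V w, ?_, ?_⟩
  · rw [mem_preimage, sel_upd hι]
    · exact hwD
    · intro σ k hk
      rw [hw σ k (lt_of_lt_of_le hk (le_max_right _ _))]
      unfold sel
      rw [put_lt _ _ hk]
  · apply upd_agree hι
    intro σ k hK hk
    rw [hw σ k (lt_of_lt_of_le hk (le_max_left _ _))]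
    unfold sel
    rw [put_ge _ _ hK]

/-- one step of the fusion -/
theorem step {p : Cond} (hA : p.1.Infinite) {O : ℕ → ℕ → (L : ℕ) → Set (E L)}
    (hO : ∀ n m L, IsOpen (O n m L)) (hne : ∀ n L, ∃ m, (O n m L).Nonempty)
    {D : (L : ℕ) → ℕ → Set (E L)} (hD1 : ∀ L k, IsOpen (D L k)) (hD2 : ∀ L k, Dense (D L k))
    (n B : ℕ) :
    ∃ (a m M : ℕ) (V : E (a + 1)), B ≤ a ∧ a ∈ p.1 ∧ a < M ∧
      (∀ w : E (a + 1), (∀ s, ∀ k < M, w s k = V s k) → w ∈ O n m (a + 1)) ∧
      (∀ J ≤ a + 1, ∀ ι : (Fin J → Bool) → (Fin (a + 1) → Bool), Function.Injective ι →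
        ∀ w : E J, (∀ σ, ∀ k, a + 1 ≤ k → k < M → w σ k = V (ι σ) k) → w ∈ D J n) := by
  classical
  obtain ⟨a, haA, ha⟩ := hA.exists_gt B
  obtain ⟨m, x, hx⟩ := hne n (a + 1)
  let Ix : Type := Σ J : Fin (a + 2), ({ι : (Fin J → Bool) → (Fin (a + 1) → Bool) //
    Function.Injective ι} × ((Fin J → Bool) → (Fin (a + 1) → Bool)))
  let S : Ix → Set (E (a + 1)) := fun i => sel i.2.1.1 i.2.2 ⁻¹' (D i.1 n)
  have hSo : ∀ i, IsOpen (S i) := fun i => (hD1 _ _).preimage (continuous_sel _ _)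
  have hSd : ∀ i, Dense (S i) := fun i => dense_sel i.2.1.2 _ (hD2 _ _)
  have hIo : IsOpen (⋂ i, S i) := isOpen_iInter_of_finite hSo
  have hId : Dense (⋂ i, S i) := dense_iInter_of_isOpen hSo hSd
  obtain ⟨V, hV1, hV2⟩ := hId.inter_open_nonempty _ (hO n m (a + 1)) ⟨x, hx⟩
  obtain ⟨N, hN⟩ := agreeE ((hO n m (a + 1)).inter hIo) ⟨hV1, hV2⟩
  refine ⟨a, m, max N (a + 1), V, ha.le, haA, lt_of_lt_of_le (Nat.lt_succ_self a)
    (le_max_right _ _), ?_, ?_⟩
  · intro w hw
    exact (hN w (fun s k hk => hw s k (lt_of_lt_of_le hk (le_max_left _ _)))).1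
  · intro J hJ ι hι w hw
    let e : (Fin J → Bool) → (Fin (a + 1) → Bool) := fun σ i => w σ i
    have h1 : upd ι V w ∈ ⋂ i, S i := by
      apply (hN (upd ι V w) ?_).2
      exact upd_agree hι (fun σ k h1 h2 => hw σ k h1 (lt_of_lt_of_le h2 (le_max_left _ _)))
    have h2 := mem_iInter.1 h1 (⟨⟨J, by omega⟩, ⟨ι, hι⟩, e⟩ : Ix)
    have h3 : sel ι e (upd ι V w) = w := sel_upd hι V (fun σ k hk => rfl)
    have h4 : sel ι e (upd ι V w) ∈ D J n := h2
    rw [h3] at h4
    exact h4

/-- the fusion -/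
theorem fusion {p : Cond} (hA : p.1.Infinite) {W : ℕ → ℕ → (L : ℕ) → Set (E L)}
    {O : ℕ → ℕ → (L : ℕ) → Set (E L)}
    (hO : ∀ n m L, IsOpen (O n m L)) (hne : ∀ n L, ∃ m, (O n m L).Nonempty)
    {D : (L : ℕ) → ℕ → Set (E L)} (hD1 : ∀ L k, IsOpen (D L k)) (hD2 : ∀ L k, Dense (D L k))
    (hD3 : ∀ L, Antitone (D L))
    (hD : ∀ L, ∀ w : E L, (∀ k, w ∈ D L k) → ∀ n m, w ∈ O n m L → PhiE p L w ∈ W n m L) :
    ∃ q : Cond, q.1.Infinite ∧ Le q p ∧ ∃ f K : ℕ → ℕ, StrictMono K ∧
     ∀ n, ∀ y : E (K n), (∀ s, ∀ k (h : k < K n), y s k = s ⟨k, h⟩) →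
       (∀ s, ∀ k, K n ≤ k → k ∉ q.1 → y s k = q.2 k (beg k (y s))) → y ∈ W n (f n) (K n) := by
  classical
  choose a m M V h1 h2 h3 h4 h5 using step hA hO hne hD1 hD2
  let Bq : ℕ → ℕ := fun n => Nat.rec 0 (fun n b => M n b) n
  have hBs : ∀ n, Bq (n + 1) = M n (Bq n) := fun n => rfl
  let α : ℕ → ℕ := fun n => a n (Bq n)
  have hαlt : ∀ n, α n < Bq (n + 1) := fun n => by rw [hBs]; exact h3 n (Bq n)
  have hBα : ∀ n, Bq n ≤ α n := fun n => h1 n (Bq n)
  have hαmono : StrictMono α := strictMono_nat_of_lt_succ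
    (fun n => (hαlt n).trans_le (hBα (n + 1)))
  have hαA : ∀ n, α n ∈ p.1 := fun n => h2 n (Bq n)
  let ν : ℕ → ℕ := fun k => Nat.findGreatest (fun n => α n < k) k
  have hν : ∀ n k, α n < k → k ≤ α (n + 1) → ν k = n := by
    intro n k hk1 hk2
    apply Nat.findGreatest_eq_iff.2
    refine ⟨?_, fun _ => hk1, ?_⟩
    · have := hαmono.le_apply (x := n)
      omega
    · intro j hj _ hjk
      have h6 : α (n + 1) ≤ α j := hαmono.monotone hj
      omega
  let φ : ℕ → Z → Bool := fun k z => if k ∈ p.1 then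
    V (ν k) (Bq (ν k)) (restr (α (ν k) + 1) z) k else p.2 k z
  let q : Cond := (range α, φ)
  have hqp : ∀ k, k ∉ p.1 → k ∉ q.1 ∧ q.2 k = p.2 k := by
    intro k hk
    refine ⟨?_, ?_⟩
    · rintro ⟨n, rfl⟩
      exact hk (hαA n)
    · funext z
      change φ k z = p.2 k z
      simp only [φ, if_neg hk]
  refine ⟨q, infinite_range_of_injective hαmono.injective, ⟨0, fun k _ => hqp k⟩,
    fun n => m n (Bq n), fun n => α n + 1, ?_, ?_⟩
  · intro i j hij
    exact Nat.add_lt_add_right (hαmono hij) 1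
  intro n y hy1 hy2
  -- the parameters
  let w : E (α n + 1) := fun σ k => if k < α n + 1 then V n (Bq n) σ k else
    if k ∈ range α then y σ k else V (ν k) (Bq (ν k)) (restr (α (ν k) + 1) (y σ)) k
  have hw1 : ∀ σ k, k < α n + 1 → w σ k = V n (Bq n) σ k := by
    intro σ k hk
    simp only [w, if_pos hk]
  have hw2 : ∀ σ k, α n + 1 ≤ k → k ∈ range α → w σ k = y σ k := by
    intro σ k hk hkα
    simp only [w, if_neg (not_lt.2 hk), if_pos hkα]
  have hw3 : ∀ σ k, α n + 1 ≤ k → k ∉ range α →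
      w σ k = V (ν k) (Bq (ν k)) (restr (α (ν k) + 1) (y σ)) k := by
    intro σ k hk hkα
    simp only [w, if_neg (not_lt.2 hk), if_neg hkα]
  have hnot : ∀ N k, α N + 1 ≤ k → k < Bq (N + 1) → k ∉ range α := by
    rintro N k hk1 hk2 ⟨j, rfl⟩
    have h6 : N < j := hαmono.lt_iff_lt.1 hk1
    have h7 : α (N + 1) ≤ α j := hαmono.monotone h6
    have h8 := hBα (N + 1)
    omega
  have hblk : ∀ N k, n ≤ N → α N + 1 ≤ k → k < Bq (N + 1) → ∀ σ,
      w σ k = V N (Bq N) (restr (α N + 1) (y σ)) k := by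
    intro N k hnN hk1 hk2 σ
    have h6 : ν k = N := hν N k hk1 (hk2.le.trans (hBα (N + 1)))
    have h7 : α n ≤ α N := hαmono.monotone hnN
    rw [hw3 σ k (by omega) (hnot N k hk1 hk2), h6]
  have hrn : ∀ σ, restr (α n + 1) (y σ) = σ := by
    intro σ
    funext i
    exact hy1 σ i i.2
  have hinj : ∀ N, n ≤ N → Function.Injective (fun σ => restr (α N + 1) (y σ)) := by
    intro N hnN σ σ' h
    have h7 : α n ≤ α N := hαmono.monotone hnN
    rw [← hrn σ, ← hrn σ']
    funext i
    exact congrFun h ⟨i, by have := i.2; omega⟩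
  have hDn : ∀ k, w ∈ D (α n + 1) k := by
    intro k
    have h7 : α n ≤ α (max n k) := hαmono.monotone (le_max_left _ _)
    apply hD3 (α n + 1) (le_max_right n k)
    refine h5 (max n k) (Bq (max n k)) (α n + 1) (by
      change α n + 1 ≤ α (max n k) + 1
      omega) (fun σ => restr (α (max n k) + 1) (y σ)) (hinj _ (le_max_left _ _)) w ?_
    intro σ l hl1 hl2
    exact hblk (max n k) l (le_max_left _ _) hl1 hl2 σ
  have hOn : w ∈ O n (m n (Bq n)) (α n + 1) := by
    apply h4 n (Bq n) w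
    intro s k hk
    by_cases hk' : k < α n + 1
    · exact hw1 s k hk'
    · rw [hblk n k le_rfl (not_lt.1 hk') hk s, hrn]
  have hfin := hD (α n + 1) w hDn n (m n (Bq n)) hOn
  have hwy : PhiE p (α n + 1) w = y := by
    funext s
    unfold PhiE
    apply Phi_unique
    · intro k hk
      by_cases hk' : k < α n + 1
      · rw [put_lt _ _ hk', hy1 s k hk']
      · have hkp : k ∈ p.1 := by
          rcases hk with h | h
          · exact absurd h hk'
          · exact h
        rw [put_ge _ _ (not_lt.1 hk')]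
        by_cases hkr : k ∈ range α
        · rw [hw2 s k (not_lt.1 hk') hkr]
        · rw [hw3 s k (not_lt.1 hk') hkr, hy2 s k (not_lt.1 hk') hkr]
          change φ k (beg k (y s)) = _
          simp only [φ, if_pos hkp]
          congr 1
          funext i
          have h8 : α (ν k) + 1 ≤ k := by
            have h9 : α (ν k) < k := by
              apply Nat.findGreatest_spec (P := fun n => α n < k) (m := n) (n := k)
              · have := hαmono.le_apply (x := n)
                omega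
              · omega
            omega
          change beg k (y s) i = y s i
          unfold beg
          rw [if_pos (by have := i.2; omega)]
    · intro k hk
      have hk' : ¬ k < α n + 1 := fun h => hk (Or.inl h)
      have hkp : k ∉ p.1 := fun h => hk (Or.inr h)
      rw [hy2 s k (not_lt.1 hk') (hqp k hkp).1, (hqp k hkp).2]
  rw [hwy] at hfin
  exact hfin

/-- the dichotomy -/
theorem dichotomy {p : Cond} (hA : p.1.Infinite) {W : ℕ → ℕ → (L : ℕ) → Set (E L)}
    (hW : ∀ n m L, MeasurableSet (W n m L)) :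
    (∃ n L, ∀ᶠ w in residual (E L), ∀ m, PhiE p L w ∉ W n m L) ∨
    (∃ q : Cond, q.1.Infinite ∧ Le q p ∧ ∃ f K : ℕ → ℕ, StrictMono K ∧
      ∀ n, ∀ y : E (K n), (∀ s, ∀ k (h : k < K n), y s k = s ⟨k, h⟩) →
        (∀ s, ∀ k, K n ≤ k → k ∉ q.1 → y s k = q.2 k (beg k (y s))) →
          y ∈ W n (f n) (K n)) := by
  have h1 : ∀ n m L, ∃ O : Set (E L), IsOpen O ∧
      ∀ᶠ w in residual (E L), (PhiE p L w ∈ W n m L ↔ w ∈ O) := by
    intro n m L
    have h2 : MeasurableSet (PhiE p L ⁻¹' W n m L) :=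
      (continuous_PhiE p L).measurable (hW n m L)
    obtain ⟨O, hO, hWO⟩ := h2.residualEq_isOpen
    refine ⟨O, hO, ?_⟩
    filter_upwards [hWO] with w hw
    exact Iff.of_eq hw
  choose O hO1 hO2 using h1
  by_cases hne : ∀ n L, ∃ m, (O n m L).Nonempty
  · right
    have h3 : ∀ L, ∀ᶠ w in residual (E L), ∀ n m, (PhiE p L w ∈ W n m L ↔ w ∈ O n m L) := by
      intro L
      rw [eventually_countable_forall]
      intro n
      rw [eventually_countable_forall]
      intro m
      exact hO2 n m L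
    choose D hD1 hD2 hD3 hD4 using fun L => exists_dense_seqE (h3 L)
    exact fusion hA hO1 hne hD1 hD2 hD3 (fun L w hw n m hwO => (hD4 L w hw n m).2 hwO)
  · left
    push Not at hne
    obtain ⟨n, L, hnL⟩ := hne
    refine ⟨n, L, ?_⟩
    rw [eventually_countable_forall]
    intro m
    filter_upwards [hO2 n m L] with w hw hwW
    have h3 := hw.1 hwW
    rw [hnL m] at h3
    exact h3

end Pool.Agent.W912.BG
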