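import Pool.Agent.W912.BG.Tower

/-!
The group under the continuum hypothesis.
-/

namespace Pool.Agent.W912.BG

set_option linter.unusedSectionVars false

open Set Filter Topology Pool.Agent.Helper185.Sel
open Pool.Agent.Helper185.Silver (Z exists_agree isOpen_agree isOpen_of_agree dense_iff_agree beg
  omega_nonempty)

theorem mk_fun_le {S : Type} (h : Cardinal.mk S ≤ Cardinal.continuum.{0}) :
    Cardinal.mk (ℕ → S) ≤ Cardinal.continuum.{0} := by
  rw [← Cardinal.power_def, Cardinal.mk_nat]
  calc Cardinal.mk S ^ Cardinal.aleph0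
      ≤ Cardinal.continuum ^ Cardinal.aleph0 := Cardinal.power_le_power_right h
    _ = Cardinal.continuum := Cardinal.continuum_power_aleph0

theorem mk_borel_le (d : ℕ) :
    Cardinal.mk {s : Set (Fin d → X) // MeasurableSet s} ≤ Cardinal.continuum.{0} := by
  have h1 : (inferInstance : MeasurableSpace (Fin d → X)) =
      MeasurableSpace.generateFrom (TopologicalSpace.countableBasis (Fin d → X)) := by
    rw [BorelSpace.measurable_eq (α := Fin d → X)]
    exact (TopologicalSpace.isBasis_countableBasis (Fin d → X)).borel_eq_generateFrom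
  have h2 := MeasurableSpace.cardinal_measurableSet_le_continuum
    (s := TopologicalSpace.countableBasis (Fin d → X))
    ((Cardinal.le_aleph0_iff_set_countable.2
      (TopologicalSpace.countable_countableBasis (Fin d → X))).trans
        Cardinal.aleph0_le_continuum)
  rw [← h1] at h2
  exact h2

/-- the tasks -/
abbrev Tsk := Σ d : ℕ, ℕ → ℕ → {s : Set (Fin d → X) // MeasurableSet s}

theorem mk_task_le : Cardinal.mk Tsk ≤ Cardinal.continuum.{0} := by
  rw [Cardinal.mk_sigma]
  calc Cardinal.sum (fun d : ℕ =>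
        Cardinal.mk (ℕ → ℕ → {s : Set (Fin d → X) // MeasurableSet s}))
      ≤ Cardinal.sum (fun _ : ℕ => Cardinal.continuum.{0}) :=
        Cardinal.sum_le_sum _ _ (fun d => mk_fun_le (mk_fun_le (mk_borel_le d)))
    _ = Cardinal.aleph0 * Cardinal.continuum := by
        rw [Cardinal.sum_const, Cardinal.mk_nat, Cardinal.lift_id, Cardinal.lift_id]
    _ = Cardinal.continuum := Cardinal.aleph0_mul_continuum

/-- Under the continuum hypothesis there is a well-order enumerating all tasks. -/
theorem exists_enumeration (hCH : Cardinal.aleph 1 = Cardinal.continuum.{0}) :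
    ∃ (I : Type) (_ : LinearOrder I) (_ : WellFoundedLT I), (∀ i : I, (Iio i).Countable) ∧
      Cardinal.mk I = Cardinal.continuum.{0} ∧
      ∃ t : I → Tsk, Function.Surjective t := by
  classical
  let I : Type := (Cardinal.aleph 1).ord.ToType
  have hI : Cardinal.mk I = Cardinal.continuum := by
    rw [← hCH]
    exact Cardinal.mk_ord_toType _
  refine ⟨I, inferInstance, inferInstance, ?_, hI, ?_⟩
  · intro i
    rw [← Cardinal.le_aleph0_iff_set_countable, ← Cardinal.lt_aleph_one_iff]
    exact Cardinal.mk_Iio_toType_ord_lt i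
  · have hT : Cardinal.mk Tsk ≤ Cardinal.mk I := by
      rw [hI]
      exact mk_task_le
    obtain ⟨e⟩ := (Cardinal.le_def Tsk I).1 hT
    have : Nonempty Tsk := ⟨⟨0, fun _ _ => ⟨univ, MeasurableSet.univ⟩⟩⟩
    exact ⟨Function.invFun e, Function.invFun_surjective e.injective⟩

/-- every Borel subset of a power of the group is a trace -/
theorem exists_trace {d : ℕ} {G : AddSubgroup X} {V : Set (Fin d → G)}
    (hV : @MeasurableSet (Fin d → G) (borel (Fin d → G)) V) :
    ∃ W : Set (Fin d → X), MeasurableSet W ∧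
      V = (fun p : Fin d → G => fun i => (p i : X)) ⁻¹' W := by
  have hind : Topology.IsInducing (fun p : Fin d → G => fun i => (p i : X)) :=
    Topology.IsInducing.piMap (fun _ => Topology.IsInducing.subtypeVal)
  have h1 : borel (Fin d → G) = MeasurableSpace.comap (fun p : Fin d → G => fun i => (p i : X))
      (borel (Fin d → X)) := by
    rw [hind.eq_induced]
    exact borel_comap
  rw [h1, MeasurableSpace.measurableSet_comap] at hV
  obtain ⟨W, hW, hWV⟩ := hV
  refine ⟨W, ?_, hWV.symm⟩
  rw [← BorelSpace.measurable_eq (α := Fin d → X)] at hW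
  exact hW

/-- description of countable Borel families on a power of the group -/
theorem exists_enum {d : ℕ} {G : AddSubgroup X} {U : Set (Set (Fin d → G))}
    (hU : U ∈ BorelFam (Fin d → G)) (hne : U.Nonempty) :
    ∃ w : ℕ → Set (Fin d → X), (∀ m, MeasurableSet (w m)) ∧
      U = range (fun m => (fun p : Fin d → G => fun i => (p i : X)) ⁻¹' (w m)) := by
  obtain ⟨V, hV⟩ := hU.1.exists_eq_range hne
  have h7 := fun m => exists_trace (hU.2 (V m) (by rw [hV]; exact mem_range_self m))
  choose W hW1 hW2 using h7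
  refine ⟨W, hW1, ?_⟩
  rw [hV]
  congr 1
  funext m
  exact hW2 m

section

variable {I : Type} [LinearOrder I] [WellFoundedLT I]

/-- the finite powers of the constructed group satisfy `S₁(B_Ω, B_Γ)` -/
theorem s1_GG {t : I → Tsk} (ht : Function.Surjective t) {b : I → Dat}
    (hb : ∀ i, Req (fun i => (t i).1) (fun i n m => ((t i).2 n m).1) i (fun j _ => b j) (b i))
    (d : ℕ) :
    S1 (OmegaOf (BorelFam (Fin d → GG b))) (GammaOf (BorelFam (Fin d → GG b))) := by
  intro U hU
  have h1 := fun n => exists_enum (hU n).1 (omega_nonempty (hU n))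
  choose w hw hUw using h1
  obtain ⟨i, hi⟩ := ht ⟨d, fun n m => ⟨w n m, hw n m⟩⟩
  have key : ∃ f : ℕ → ℕ, ∀ x : Fin d → X, (∀ l, x l ∈ GG b) → {n | x ∉ w n (f n)}.Finite := by
    have h2 := selection_of_task hb i
    have h3 : ∀ T : Tsk, T = ⟨d, fun n m => ⟨w n m, hw n m⟩⟩ →
        ((∀ n, ∀ F : Set (Fin T.1 → X), F.Finite → (∀ x ∈ F, ∀ l, x l ∈ GG b) →
          ∃ m, F ⊆ (T.2 n m).1) →
        ∃ f : ℕ → ℕ, ∀ x : Fin T.1 → X, (∀ l, x l ∈ GG b) →
          {n | x ∉ (T.2 n (f n)).1}.Finite) →
        ∃ f : ℕ → ℕ, ∀ x : Fin d → X, (∀ l, x l ∈ GG b) → {n | x ∉ w n (f n)}.Finite := by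
      rintro T rfl h4
      apply h4
      intro n F hF hFX
      obtain ⟨v, hv, hFv⟩ := (hU n).2.2 ((fun p : Fin d → GG b => fun i => (p i : X)) ⁻¹' F)
        (hF.preimage (by
          intro p _ p' _ hpp
          funext l
          exact Subtype.ext (congrFun hpp l)))
      rw [hUw n] at hv
      obtain ⟨m, rfl⟩ := hv
      refine ⟨m, fun z hz => ?_⟩
      have h5 : (fun l => (⟨z l, hFX z hz l⟩ : GG b)) ∈
          (fun p : Fin d → GG b => fun i => (p i : X)) ⁻¹' (w n m) := hFv hz
      exact h5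
    exact h3 (t i) hi h2
  obtain ⟨f, hf⟩ := key
  refine ⟨fun n => (fun p : Fin d → GG b => fun i => (p i : X)) ⁻¹' (w n (f n)), ?_, ?_⟩
  · intro n
    rw [hUw n]
    exact mem_range_self _
  · refine range_gamma (adm_borel _) (fun n => (hU n).1) (fun n => (hU n).2.1.2) ?_ ?_
    · intro n
      rw [hUw n]
      exact mem_range_self _
    · intro x
      exact hf (fun l => (x l : X)) (fun l => (x l).2)

end

theorem pullB_omega {A B : Type} [TopologicalSpace A] [TopologicalSpace B] (e : A ≃ₜ B)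
    {U : Set (Set B)} (hU : U ∈ OmegaOf (BorelFam B)) :
    pullFam e U ∈ OmegaOf (BorelFam A) := by
  refine ⟨pull_borel e.continuous U hU.1, pull_isCov e hU.2.1, ?_⟩
  intro F hF
  obtain ⟨u, hu, hFu⟩ := hU.2.2 (e '' F) (hF.image e)
  exact ⟨_, ⟨u, hu, rfl⟩, fun x hx => hFu ⟨x, hx, rfl⟩⟩

theorem pullB_gamma {A B : Type} [TopologicalSpace A] [TopologicalSpace B] (e : A ≃ₜ B)
    {U : Set (Set B)} (hU : U ∈ GammaOf (BorelFam B)) :
    pullFam e U ∈ GammaOf (BorelFam A) := by
  refine ⟨pull_borel e.continuous U hU.1, pull_isCov e hU.2.1,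
    hU.2.2.1.image (pre_injective e).injOn, ?_⟩
  intro x
  apply ((hU.2.2.2 (e x)).image (fun u => e ⁻¹' u)).subset
  rintro _ ⟨⟨u, hu, rfl⟩, hx⟩
  exact ⟨u, ⟨hu, hx⟩, rfl⟩

/-- Under the continuum hypothesis there is a subgroup of `ℤ ^ ℕ` of size continuum all of whose
finite powers satisfy `S₁(B_Ω, B_Γ)`. -/
theorem main (hCH : Cardinal.aleph 1 = Cardinal.continuum.{0}) :
    ∃ G : AddSubgroup (ℕ → ℤ), Cardinal.mk G = Cardinal.continuum ∧
      S1 (OmegaOf (BorelFam G)) (GammaOf (BorelFam G)) ∧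
      ∀ d : ℕ, S1 (OmegaOf (BorelFam (Fin d → G))) (GammaOf (BorelFam (Fin d → G))) := by
  obtain ⟨I, _, _, hI, hmk, t, ht⟩ := exists_enumeration hCH
  obtain ⟨b, hb⟩ := exists_tower hI (fun i => (t i).1) (fun i n m => ((t i).2 n m).1)
    (fun i n m => ((t i).2 n m).2)
  refine ⟨GG b, ?_, ?_, s1_GG ht hb⟩
  · apply le_antisymm
    · have h1 : Cardinal.mk (ℕ → ℤ) = Cardinal.continuum := by simp
      rw [← h1]
      exact Cardinal.mk_subtype_le _
    · rw [← hmk]
      exact mk_le hb
  · exact s1_transport (Homeomorph.funUnique (Fin 1) (GG b))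
      (fun U hU => pullB_omega _ hU) (fun U hU => pullB_gamma _ hU) (s1_GG ht hb 1)

end Pool.Agent.W912.BG
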