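import Pool.Agent.W912.BG.Main
import Pool.Agent.Helper185.SierpBase

/-!
From Borel covers to open covers.
-/

namespace Pool.Agent.W912.BG

open Set Filter Topology Pool.Agent.Helper185.Sel

theorem s1_open_of_borel {Y : Type} [TopologicalSpace Y] [SecondCountableTopology Y]
    (h : S1 (OmegaOf (BorelFam Y)) (GammaOf (BorelFam Y))) :
    S1 (OmegaOf (OpenFam Y)) (GammaOf (OpenFam Y)) := by
  intro U hU
  have h1 : ∀ n, ∃ V ⊆ U n, V.Countable ∧ ∀ F : Set Y, F.Finite → ∃ u ∈ V, F ⊆ u := fun n =>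
    Pool.Agent.Helper185.Sierp.exists_countable_omega (hU n).1 (hU n).2.2
  choose V hV1 hV2 hV3 using h1
  have h2 : ∀ n, V n ∈ OmegaOf (BorelFam Y) := by
    intro n
    refine ⟨⟨hV2 n, ?_⟩, ⟨?_, fun h => (hU n).2.1.2 (hV1 n h)⟩, hV3 n⟩
    · intro u hu
      let _ := borel Y
      have _ : BorelSpace Y := ⟨rfl⟩
      exact ((hU n).1 u (hV1 n hu)).measurableSet
    · rw [eq_univ_iff_forall]
      intro x
      obtain ⟨u, hu, hxu⟩ := hV3 n {x} (finite_singleton x)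
      exact ⟨u, hu, hxu rfl⟩
  obtain ⟨W, hW1, hW2⟩ := h V h2
  refine ⟨W, fun n => hV1 n (hW1 n), ?_, hW2.2⟩
  rintro _ ⟨n, rfl⟩
  exact (hU n).1 _ (hV1 n (hW1 n))

/-- The main theorem. -/
theorem main_all (hCH : Cardinal.aleph 1 = Cardinal.continuum.{0}) :
    ∃ G : AddSubgroup (ℕ → ℤ), Cardinal.mk G = Cardinal.continuum ∧
      S1 (OmegaOf (BorelFam G)) (GammaOf (BorelFam G)) ∧
      S1 (OmegaOf (OpenFam G)) (GammaOf (OpenFam G)) ∧
      ∀ d : ℕ, S1 (OmegaOf (BorelFam (Fin d → G))) (GammaOf (BorelFam (Fin d → G))) := by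
  obtain ⟨G, h1, h2, h3⟩ := main hCH
  have : SecondCountableTopology G :=
    (Topology.IsInducing.subtypeVal (t := (G : Set (ℕ → ℤ)))).secondCountableTopology
  exact ⟨G, h1, h2, s1_open_of_borel h2, h3⟩

end Pool.Agent.W912.BG
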