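import Pool.Agent.W912.BG.Fusion

/-!
The stage lemma.
-/

namespace Pool.Agent.W912.BG

set_option linter.unusedSectionVars false

open Set Filter Topology
open Pool.Agent.Helper185.Silver (Z exists_agree isOpen_agree isOpen_of_agree dense_iff_agree beg)

/-- the sequences of integers -/
abbrev X := ℕ → ℤ

/-- a point of the Cantor space as a sequence of integers -/
def emb (y : Z) : X := fun k => if y k then 1 else 0

theorem emb_injective : Function.Injective emb := by
  intro x y h
  funext k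
  have := congrFun h k
  unfold emb at this
  cases hx : x k <;> cases hy : y k <;> simp [hx, hy] at this ⊢

theorem continuous_emb : Continuous emb := by
  apply continuous_pi
  intro k
  exact (continuous_of_discreteTopology (f := fun b : Bool => if b = true then (1 : ℤ) else 0)).comp
    (continuous_apply k)

/-- the tuple of linear combinations of the points of a tuple -/
def comb {d L : ℕ} (g : Fin d → X) (c : Fin d → (Fin L → Bool) → ℤ) (y : E L) : Fin d → X :=
  fun i => g i + ∑ s, c i s • emb (y s)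

theorem continuous_comb {d L : ℕ} (g : Fin d → X) (c : Fin d → (Fin L → Bool) → ℤ) :
    Continuous (comb g c) := by
  apply continuous_pi
  intro i
  apply continuous_const.add
  apply continuous_finsetSum
  intro s _
  exact (continuous_emb.comp (continuous_apply s)).const_smul (c i s)

/-- the linear combination given by a finitely supported function -/
noncomputable def lin {d : ℕ} (g : Fin d → X) (c : Fin d → (Z →₀ ℤ)) : Fin d → X :=
  fun i => g i + (c i).sum (fun y a => a • emb y)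

/-- the disposition of one task -/
def Task {d : ℕ} (q : Cond) (S : Set Z) (H : AddSubgroup X) (u : ℕ → ℕ → Set (Fin d → X)) :
    Prop :=
  (∃ f : ℕ → ℕ, ∀ g : Fin d → X, (∀ i, g i ∈ H) → ∀ c : Fin d → (Z →₀ ℤ),
    (∀ i, ∀ y ∈ (c i).support, Near q y) → {n | lin g c ∉ u n (f n)}.Finite) ∨
  (∃ n, ∃ F : Set (Fin d → X), F.Finite ∧
    (∀ x ∈ F, ∀ i, x i ∈ AddSubgroup.closure ((H : Set X) ∪ emb '' S)) ∧ ∀ m, ¬ F ⊆ u n m)

/-- the bounded coefficients -/
def Cf (d L n : ℕ) : Set (Fin d → (Fin L → Bool) → ℤ) :=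
  {c | ∀ i s, c i s ∈ Icc (-(n : ℤ)) n}

theorem finite_Cf (d L n : ℕ) : (Cf d L n).Finite :=
  Set.Finite.pi' (fun _ => Set.Finite.pi' (fun _ => finite_Icc _ _))

/-- the case of a successful fusion -/
theorem task_of_fusion {d : ℕ} {q : Cond} {H : AddSubgroup X} {u : ℕ → ℕ → Set (Fin d → X)}
    {F : ℕ → Set (Fin d → X)}
    (hF : ∀ g : Fin d → X, (∀ i, g i ∈ H) → ∃ N, ∀ n, N ≤ n → g ∈ F n)
    {f K : ℕ → ℕ} (hK : StrictMono K)
    (h : ∀ n, ∀ y : E (K n), (∀ s, ∀ k (h : k < K n), y s k = s ⟨k, h⟩) →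
      (∀ s, ∀ k, K n ≤ k → k ∉ q.1 → y s k = q.2 k (beg k (y s))) →
        ∀ g ∈ F n, ∀ c ∈ Cf d (K n) n, comb g c y ∈ u n (f n)) :
    ∀ g : Fin d → X, (∀ i, g i ∈ H) → ∀ c : Fin d → (Z →₀ ℤ),
      (∀ i, ∀ y ∈ (c i).support, Near q y) → {n | lin g c ∉ u n (f n)}.Finite := by
  classical
  intro g hg c hc
  obtain ⟨N0, hN0⟩ := hF g hg
  -- the finite set of points
  let T : Finset Z := Finset.univ.biUnion (fun i => (c i).support)
  have hT : ∀ i, (c i).support ⊆ T := fun i => Finset.subset_biUnion_of_mem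
    (fun i => (c i).support) (Finset.mem_univ i)
  have hTnear : ∀ y ∈ T, Near q y := by
    intro y hy
    obtain ⟨i, _, hi⟩ := Finset.mem_biUnion.1 hy
    exact hc i y hi
  have h1 : ∀ y : Z, ∃ N, y ∈ T → ∀ k, N ≤ k → k ∉ q.1 → y k = q.2 k (beg k y) := by
    intro y
    by_cases hy : y ∈ T
    · obtain ⟨N, hN⟩ := hTnear y hy
      exact ⟨N, fun _ => hN⟩
    · exact ⟨0, fun h => absurd h hy⟩
  choose N1 hN1 using h1
  have h2 : ∀ r : Z × Z, ∃ k, r.1 ≠ r.2 → r.1 k ≠ r.2 k := by
    rintro ⟨y, z⟩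
    by_cases hyz : y = z
    · exact ⟨0, fun h => absurd hyz h⟩
    · obtain ⟨k, hk⟩ := Function.ne_iff.1 hyz
      exact ⟨k, fun _ => hk⟩
  choose N2 hN2 using h2
  let N3 : ℕ := (Finset.univ : Finset (Fin d)).sup (fun i => T.sup (fun y => (c i y).natAbs))
  let N : ℕ := N0 + T.sup N1 + (T ×ˢ T).sup N2 + N3 + 1
  apply (finite_lt_nat N).subset
  intro n hn
  by_contra hcon
  have hNn : N ≤ n := not_lt.1 hcon
  apply hn
  have hKn : n ≤ K n := hK.le_apply
  -- the restriction map is injective on T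
  have hinj : ∀ y ∈ T, ∀ z ∈ T, restr (K n) y = restr (K n) z → y = z := by
    intro y hy z hz hyz
    by_contra hne
    have h3 := hN2 (y, z) hne
    have h4 : N2 (y, z) ≤ (T ×ˢ T).sup N2 :=
      Finset.le_sup (f := N2) (Finset.mem_product.2 ⟨hy, hz⟩)
    apply h3
    exact congrFun hyz ⟨N2 (y, z), by omega⟩
  let yy : E (K n) := fun s => if hs : ∃ y ∈ T, restr (K n) y = s then hs.choose
    else PhiE q (K n) (fun _ _ => false) s
  have hyy : ∀ y ∈ T, yy (restr (K n) y) = y := by
    intro y hy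
    have hs : ∃ y' ∈ T, restr (K n) y' = restr (K n) y := ⟨y, hy, rfl⟩
    change (if hs : ∃ y' ∈ T, restr (K n) y' = restr (K n) y then hs.choose
      else PhiE q (K n) (fun _ _ => false) (restr (K n) y)) = y
    rw [dif_pos hs]
    exact hinj _ hs.choose_spec.1 _ hy hs.choose_spec.2
  have hyy' : ∀ s, (¬ ∃ y ∈ T, restr (K n) y = s) →
      yy s = PhiE q (K n) (fun _ _ => false) s := by
    intro s hs
    change (if hs : ∃ y' ∈ T, restr (K n) y' = s then hs.choose
      else PhiE q (K n) (fun _ _ => false) s) = _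
    rw [dif_neg hs]
  let cc : Fin d → (Fin (K n) → Bool) → ℤ := fun i s =>
    if ∃ y ∈ T, restr (K n) y = s then c i (yy s) else 0
  have key := h n yy ?_ ?_ g (hN0 n (by omega)) cc ?_
  · have h5 : comb g cc yy = lin g c := by
      funext i
      unfold comb lin
      congr 1
      have h6 : (c i).sum (fun y a => a • emb y) = ∑ y ∈ T, c i y • emb y :=
        Finsupp.sum_of_support_subset _ (hT i) _ (by simp)
      rw [h6]
      have h7 : ∑ s, cc i s • emb (yy s) =
          ∑ s ∈ T.image (restr (K n)), cc i s • emb (yy s) := by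
        symm
        apply Finset.sum_subset (Finset.subset_univ _)
        intro s _ hs
        have h8 : ¬ ∃ y ∈ T, restr (K n) y = s := by
          rintro ⟨y, hy, rfl⟩
          exact hs (Finset.mem_image_of_mem _ hy)
        simp only [cc, if_neg h8, zero_smul]
      rw [h7, Finset.sum_image (fun y hy z hz h => hinj y hy z hz h)]
      apply Finset.sum_congr rfl
      intro y hy
      have h9 : ∃ y' ∈ T, restr (K n) y' = restr (K n) y := ⟨y, hy, rfl⟩
      simp only [cc, if_pos h9, hyy y hy]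
    rw [h5] at key
    exact key
  · intro s k hk
    by_cases hs : ∃ y ∈ T, restr (K n) y = s
    · obtain ⟨y, hy, rfl⟩ := hs
      rw [hyy y hy]
      rfl
    · rw [hyy' s hs, PhiE_lt _ _ hk]
  · intro s k hk hkq
    by_cases hs : ∃ y ∈ T, restr (K n) y = s
    · obtain ⟨y, hy, rfl⟩ := hs
      rw [hyy y hy]
      have h4 : N1 y ≤ T.sup N1 := Finset.le_sup hy
      exact hN1 y hy k (by omega) hkq
    · rw [hyy' s hs]
      exact PhiE_rule _ _ hk hkq
  · intro i s
    by_cases hs : ∃ y ∈ T, restr (K n) y = s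
    · obtain ⟨y, hy, rfl⟩ := hs
      have h9 : ∃ y' ∈ T, restr (K n) y' = restr (K n) y := ⟨y, hy, rfl⟩
      simp only [cc, if_pos h9, hyy y hy]
      have h10 : (c i y).natAbs ≤ N3 := by
        have h11 : T.sup (fun y => (c i y).natAbs) ≤ N3 :=
          Finset.le_sup (f := fun i => T.sup (fun y => (c i y).natAbs)) (Finset.mem_univ i)
        exact (Finset.le_sup (f := fun y => (c i y).natAbs) hy).trans h11
      rw [mem_Icc]
      omega
    · simp only [cc, if_neg hs, mem_Icc]
      omega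

theorem exists_approx {d : ℕ} {H : AddSubgroup X} (hH : (H : Set X).Countable) :
    ∃ F : ℕ → Set (Fin d → X), (∀ n, (F n).Finite) ∧ (∀ n, ∀ g ∈ F n, ∀ i, g i ∈ H) ∧
      ∀ g : Fin d → X, (∀ i, g i ∈ H) → ∃ N, ∀ n, N ≤ n → g ∈ F n := by
  have h1 : (pi univ (fun _ : Fin d => (H : Set X))).Countable :=
    Set.countable_univ_pi (fun _ => hH)
  have hne : (pi univ (fun _ : Fin d => (H : Set X))).Nonempty :=
    ⟨fun _ => 0, fun _ _ => H.zero_mem⟩
  obtain ⟨e, he⟩ := h1.exists_eq_range hne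
  refine ⟨fun n => e '' {i | i ≤ n}, fun n => (finite_le_nat n).image e, ?_, ?_⟩
  · rintro n _ ⟨j, _, rfl⟩ i
    have h2 : e j ∈ pi univ (fun _ : Fin d => (H : Set X)) := by
      rw [he]
      exact mem_range_self j
    exact h2 i trivial
  · intro g hg
    have h2 : g ∈ range e := by
      rw [← he]
      exact fun i _ => hg i
    obtain ⟨j, rfl⟩ := h2
    exact ⟨j, fun n hn => ⟨j, hn, rfl⟩⟩

/-- the stage lemma -/
theorem stage {d : ℕ} {p : Cond} (hA : p.1.Infinite) {H : AddSubgroup X}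
    (hH : (H : Set X).Countable) {u : ℕ → ℕ → Set (Fin d → X)}
    (hu : ∀ n m, MeasurableSet (u n m)) :
    ∃ (q : Cond) (S : Set Z), q.1.Infinite ∧ Le q p ∧ S.Finite ∧ (∀ y ∈ S, Near q y) ∧
      (∃ y ∈ S, emb y ∉ H) ∧ Task q S H u := by
  classical
  obtain ⟨F, hF1, hF2, hF3⟩ := exists_approx (d := d) hH
  have hHZ : {y : Z | emb y ∈ H}.Countable := hH.preimage emb_injective
  let W : ℕ → ℕ → (L : ℕ) → Set (E L) := fun n m L =>
    ⋂ g ∈ F n, ⋂ c ∈ Cf d L n, comb g c ⁻¹' u n m
  have hW : ∀ n m L, MeasurableSet (W n m L) := by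
    intro n m L
    refine MeasurableSet.biInter (hF1 n).countable (fun g _ => ?_)
    refine MeasurableSet.biInter (finite_Cf d L n).countable (fun c _ => ?_)
    exact (continuous_comb g c).measurable (hu n m)
  rcases dichotomy hA hW with ⟨n, L, hL⟩ | ⟨q, hq, hqp, f, K, hK, hW'⟩
  · -- the family is killed
    obtain ⟨w, hw1, hw2⟩ := (dense_of_mem_residual (hL.and (fresh hA L hHZ))).nonempty
    refine ⟨p, range (PhiE p L w), hA, Le.refl p, finite_range _, ?_, ?_, Or.inr ⟨n, ?_⟩⟩
    · rintro _ ⟨s, rfl⟩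
      exact near_PhiE p L w s
    · exact ⟨_, mem_range_self (fun _ => false), hw2 _⟩
    · refine ⟨(fun r : (Fin d → X) × (Fin d → (Fin L → Bool) → ℤ) => comb r.1 r.2 (PhiE p L w)) ''
        (F n ×ˢ Cf d L n), ((hF1 n).prod (finite_Cf d L n)).image _, ?_, ?_⟩
      · rintro _ ⟨⟨g, c⟩, ⟨hg, _⟩, rfl⟩ i
        change g i + ∑ s, c i s • emb (PhiE p L w s) ∈ _
        apply AddSubgroup.add_mem
        · exact AddSubgroup.subset_closure (Or.inl (hF2 n g hg i))
        · apply AddSubgroup.sum_mem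
          intro s _
          apply AddSubgroup.zsmul_mem
          exact AddSubgroup.subset_closure (Or.inr ⟨_, mem_range_self s, rfl⟩)
      · intro m hm
        apply hw1 m
        refine mem_iInter₂.2 (fun g hg => mem_iInter₂.2 (fun c hc => ?_))
        exact hm ⟨(g, c), ⟨hg, hc⟩, rfl⟩
  · -- the fusion succeeds
    obtain ⟨w, hw⟩ := (dense_of_mem_residual (fresh hq 0 hHZ)).nonempty
    refine ⟨q, range (PhiE q 0 w), hq, hqp, finite_range _, ?_, ?_, Or.inl ⟨f, ?_⟩⟩
    · rintro _ ⟨s, rfl⟩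
      exact near_PhiE q 0 w s
    · exact ⟨_, mem_range_self (fun _ => false), hw _⟩
    · apply task_of_fusion hF3 hK
      intro n y hy1 hy2 g hg c hc
      have h1 := hW' n y hy1 hy2
      exact mem_iInter₂.1 (mem_iInter₂.1 h1 g hg) c hc

end Pool.Agent.W912.BG
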