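import Pool.Agent.W912.BG.Stage
import Pool.Agent.Helper185.SilverMain

/-!
The tower of conditions, and the group.
-/

namespace Pool.Agent.W912.BG

set_option linter.unusedSectionVars false

open Set Filter Topology
open Pool.Agent.Helper185.Silver (Z exists_agree isOpen_agree isOpen_of_agree dense_iff_agree beg)

/-- lower bounds of decreasing sequences of conditions -/
theorem lower_seq (P : ℕ → Cond) (hinf : ∀ n, (P n).1.Infinite)
    (hle : ∀ m n, m ≤ n → Le (P n) (P m)) : ∃ p : Cond, p.1.Infinite ∧ ∀ n, Le p (P n) := by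
  classical
  have hT : ∀ n, ∃ T : ℕ, ∀ m ≤ n, ∀ k, T ≤ k → k ∉ (P m).1 →
      k ∉ (P n).1 ∧ (P n).2 k = (P m).2 k := by
    intro n
    have h1 : ∀ m, ∃ T : ℕ, m ≤ n → ∀ k, T ≤ k → k ∉ (P m).1 →
        k ∉ (P n).1 ∧ (P n).2 k = (P m).2 k := by
      intro m
      by_cases hmn : m ≤ n
      · obtain ⟨T, hT⟩ := hle m n hmn
        exact ⟨T, fun _ => hT⟩
      · exact ⟨0, fun h => absurd h hmn⟩
    choose τ hτ using h1
    refine ⟨∑ m ∈ Finset.range (n + 1), τ m, fun m hm k hk => hτ m hm k ?_⟩
    exact (Finset.single_le_sum (f := τ) (fun _ _ => Nat.zero_le _)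
      (Finset.mem_range.2 (by omega))).trans hk
  choose T hT using hT
  have hex : ∀ n t : ℕ, ∃ a, t ≤ a ∧ a ∈ (P n).1 := fun n t => by
    obtain ⟨a, ha, hta⟩ := (hinf n).exists_gt t
    exact ⟨a, hta.le, ha⟩
  choose α hα1 hα2 using hex
  let t : ℕ → ℕ := fun n => Nat.rec (T 0) (fun n tn => max (T (n + 1)) (α n tn + 1)) n
  have ht0 : t 0 = T 0 := rfl
  have hts : ∀ n, t (n + 1) = max (T (n + 1)) (α n (t n) + 1) := fun n => rfl
  let a : ℕ → ℕ := fun n => α n (t n)
  have hta : ∀ n, t n ≤ a n := fun n => hα1 n (t n)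
  have hat : ∀ n, a n < t (n + 1) := fun n => by
    rw [hts]
    exact lt_of_lt_of_le (Nat.lt_succ_self _) (le_max_right _ _)
  have htmono : StrictMono t := strictMono_nat_of_lt_succ (fun n => (hta n).trans_lt (hat n))
  have hamono : StrictMono a :=
    strictMono_nat_of_lt_succ (fun n => (hat n).trans_le (hta (n + 1)))
  have hTt : ∀ n, T n ≤ t n := by
    intro n
    cases n with
    | zero => exact le_rfl
    | succ n => rw [hts]; exact le_max_left _ _
  have hloc0 : ∀ k : ℕ, ∃ n : ℕ, t 0 ≤ k → t n ≤ k ∧ k < t (n + 1) := by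
    intro k
    by_contra hcon
    push Not at hcon
    have hall : ∀ n : ℕ, t n ≤ k := by
      intro n
      induction n with
      | zero => exact (hcon 0).1
      | succ n ih => exact (hcon n).2 ih
    have h1 := hall (k + 1)
    have h2 : k + 1 ≤ t (k + 1) := htmono.le_apply
    omega
  choose ν hν0 using hloc0
  have huniq : ∀ k n n' : ℕ, t n ≤ k → k < t (n + 1) → t n' ≤ k → k < t (n' + 1) → n = n' := by
    intro k n n' h1 h2 h3 h4
    have h5 : n < n' + 1 := htmono.lt_iff_lt.1 (lt_of_le_of_lt h1 h4)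
    have h6 : n' < n + 1 := htmono.lt_iff_lt.1 (lt_of_le_of_lt h3 h2)
    omega
  have hν : ∀ k n, t n ≤ k → k < t (n + 1) → ν k = n := by
    intro k n h1 h2
    have h3 := hν0 k ((htmono.monotone (Nat.zero_le n)).trans h1)
    exact huniq k _ _ h3.1 h3.2 h1 h2
  have hloc : ∀ k m, t m ≤ k → ∃ n, m ≤ n ∧ t n ≤ k ∧ k < t (n + 1) := by
    intro k m hm
    have h3 := hν0 k ((htmono.monotone (Nat.zero_le m)).trans hm)
    refine ⟨ν k, ?_, h3.1, h3.2⟩
    have h5 : m < ν k + 1 := htmono.lt_iff_lt.1 (lt_of_le_of_lt hm h3.2)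
    omega
  refine ⟨(range a, fun k => (P (ν k)).2 k), infinite_range_of_injective hamono.injective, ?_⟩
  intro m
  refine ⟨t m, fun k hk hkP => ?_⟩
  obtain ⟨n, hmn, hn1, hn2⟩ := hloc k m hk
  have h1 := hT n m hmn k ((hTt n).trans hn1) hkP
  refine ⟨?_, ?_⟩
  · rintro ⟨j, rfl⟩
    have h2 : j = n := by
      rw [← hν (a j) n hn1 hn2]
      exact (hν (a j) j (hta j) (hat j)).symm
    subst h2
    exact h1.1 (hα2 j (t j))
  · change (P (ν k)).2 k = (P m).2 k
    rw [hν k n hn1 hn2]
    exact h1.2

section Rec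

variable {I : Type} [LinearOrder I] [WellFoundedLT I]

theorem exists_lower {i : I} (hI : (Iio i).Countable) (prev : (j : I) → j < i → Cond)
    (hinf : ∀ j h, (prev j h).1.Infinite)
    (hchain : ∀ (j k : I) (hj : j < i) (hk : k < i), j < k → Le (prev k hk) (prev j hj)) :
    ∃ p : Cond, p.1.Infinite ∧ ∀ j h, Le p (prev j h) := by
  classical
  have : Countable (Iio i) := hI.to_subtype
  rcases isEmpty_or_nonempty (Iio i) with he | hne
  · exact ⟨(univ, fun _ _ => false), infinite_univ, fun j h => (he.false ⟨j, h⟩).elim⟩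
  · obtain ⟨e, he⟩ := exists_surjective_nat (Iio i)
    have hch : ∀ a b : Iio i, a ≤ b → Le (prev b.1 b.2) (prev a.1 a.2) := by
      intro a b hab
      rcases eq_or_lt_of_le hab with h | h
      · subst h
        exact Le.refl _
      · exact hchain a.1 b.1 a.2 b.2 h
    obtain ⟨p, hp1, hp2⟩ := lower_seq (fun n => prev (partialSups e n).1 (partialSups e n).2)
      (fun n => hinf _ _) (fun m n hmn => hch _ _ ((partialSups e).monotone hmn))
    refine ⟨p, hp1, fun j h => ?_⟩
    obtain ⟨n, hn⟩ := he ⟨j, h⟩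
    refine (hp2 n).trans ?_
    have h1 := hch (e n) (partialSups e n) (le_partialSups e n)
    rw [hn] at h1
    exact h1

theorem closure_countable {S : Set X} (hS : S.Countable) :
    ((AddSubgroup.closure S : AddSubgroup X) : Set X).Countable := by
  have : Countable S := hS.to_subtype
  let φ : (S →₀ ℤ) →ₗ[ℤ] X := Finsupp.linearCombination ℤ (fun s : S => (s : X))
  have h : AddSubgroup.closure S ≤ (LinearMap.range φ).toAddSubgroup := by
    rw [AddSubgroup.closure_le]
    intro s hs
    refine ⟨Finsupp.single ⟨s, hs⟩ 1, ?_⟩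
    simp [φ]
  refine (countable_range φ).mono ?_
  intro x hx
  exact h hx

/-- data chosen at one stage: a condition and a finite set of points -/
abbrev Dat := Cond × Set Z

/-- the group generated by the points constructed before stage `i` -/
def before (i : I) (prev : (j : I) → j < i → Dat) : AddSubgroup X :=
  AddSubgroup.closure {x | ∃ (j : I) (h : j < i), ∃ y ∈ (prev j h).2, x = emb y}

theorem countable_before {i : I} (hI : (Iio i).Countable) (prev : (j : I) → j < i → Dat)
    (hfin : ∀ j h, (prev j h).2.Finite) : ((before i prev : AddSubgroup X) : Set X).Countable := by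
  have : Countable (Iio i) := hI.to_subtype
  have h1 : {x : X | ∃ (j : I) (h : j < i), ∃ y ∈ (prev j h).2, x = emb y} ⊆
      ⋃ j : Iio i, emb '' (prev j.1 j.2).2 := by
    rintro _ ⟨j, h, y, hy, rfl⟩
    exact mem_iUnion.2 ⟨⟨j, h⟩, y, hy, rfl⟩
  have h2 : {x : X | ∃ (j : I) (h : j < i), ∃ y ∈ (prev j h).2, x = emb y}.Countable :=
    (countable_iUnion (fun j => ((hfin _ _).image _).countable)).mono h1
  exact closure_countable h2

/-- the requirement at stage `i` -/
def Req (d : I → ℕ) (u : (i : I) → ℕ → ℕ → Set (Fin (d i) → X)) (i : I)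
    (prev : (j : I) → j < i → Dat) (s : Dat) : Prop :=
  s.1.1.Infinite ∧ (∀ (j : I) (h : j < i), Le s.1 (prev j h).1) ∧ s.2.Finite ∧
    (∀ y ∈ s.2, Near s.1 y) ∧ (∃ y ∈ s.2, emb y ∉ before i prev) ∧
    Task s.1 s.2 (before i prev) (u i)

theorem exists_req (d : I → ℕ) (u : (i : I) → ℕ → ℕ → Set (Fin (d i) → X))
    (hu : ∀ i n m, MeasurableSet (u i n m)) {i : I}
    (hI : (Iio i).Countable) (prev : (j : I) → j < i → Dat)
    (hinf : ∀ j h, (prev j h).1.1.Infinite) (hfin : ∀ j h, (prev j h).2.Finite)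
    (hchain : ∀ (j k : I) (hj : j < i) (hk : k < i), j < k →
      Le (prev k hk).1 (prev j hj).1) :
    ∃ s, Req d u i prev s := by
  obtain ⟨p, hp1, hp2⟩ := exists_lower hI (fun j h => (prev j h).1) hinf hchain
  obtain ⟨q, S, h1, h2, h3, h4, h5, h6⟩ :=
    stage hp1 (countable_before hI prev hfin) (hu i)
  exact ⟨(q, S), h1, fun j h => h2.trans (hp2 j h), h3, h4, h5, h6⟩

theorem exists_tower (hI : ∀ i : I, (Iio i).Countable) (d : I → ℕ)
    (u : (i : I) → ℕ → ℕ → Set (Fin (d i) → X)) (hu : ∀ i n m, MeasurableSet (u i n m)) :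
    ∃ b : I → Dat, ∀ i, Req d u i (fun j _ => b j) (b i) := by
  classical
  let step : (i : I) → ((j : I) → j < i → Dat) → Dat := fun i prev =>
    if h : ∃ b, Req d u i prev b then h.choose else ((univ, fun _ _ => false), ∅)
  let b : I → Dat := WellFounded.fix (wellFounded_lt (α := I)) step
  have hb : ∀ i, b i = step i (fun j _ => b j) := fun i =>
    WellFounded.fix_eq (wellFounded_lt (α := I)) step i
  refine ⟨b, ?_⟩
  intro i
  induction i using WellFoundedLT.induction with
  | ind i ih =>
    have hex : ∃ b', Req d u i (fun j _ => b j) b' := by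
      apply exists_req d u hu (hI i)
      · intro j h
        exact (ih j h).1
      · intro j h
        exact (ih j h).2.2.1
      · intro j k hj hk hjk
        exact (ih k hk).2.1 j hjk
    rw [hb i]
    simp only [step]
    rw [dif_pos hex]
    exact hex.choose_spec

/-- the group -/
def GG (b : I → Dat) : AddSubgroup X := AddSubgroup.closure {x | ∃ i, ∃ y ∈ (b i).2, x = emb y}

theorem before_le (b : I → Dat) (i : I) : before i (fun j _ => b j) ≤ GG b := by
  apply AddSubgroup.closure_mono
  rintro _ ⟨j, _, y, hy, rfl⟩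
  exact ⟨j, y, hy, rfl⟩

/-- every element of the group is an element of the group before stage `i` plus a combination of
points almost compatible with the condition of stage `i` -/
theorem decompose {d : I → ℕ} {u : (i : I) → ℕ → ℕ → Set (Fin (d i) → X)} {b : I → Dat}
    (hb : ∀ i, Req d u i (fun j _ => b j) (b i)) (i : I) {x : X} (hx : x ∈ GG b) :
    ∃ g ∈ before i (fun j _ => b j), ∃ c : Z →₀ ℤ, (∀ y ∈ c.support, Near (b i).1 y) ∧
      x = g + c.sum (fun y a => a • emb y) := by
  classical
  induction hx using AddSubgroup.closure_induction with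
  | mem x hx =>
    obtain ⟨j, y, hy, rfl⟩ := hx
    rcases lt_or_ge j i with h | h
    · exact ⟨emb y, AddSubgroup.subset_closure ⟨j, h, y, hy, rfl⟩, 0, by simp, by simp⟩
    · have hle : Le (b j).1 (b i).1 := by
        rcases eq_or_lt_of_le h with h' | h'
        · subst h'
          exact Le.refl _
        · exact (hb j).2.1 i h'
      refine ⟨0, AddSubgroup.zero_mem _, Finsupp.single y 1, ?_, ?_⟩
      · intro z hz
        have : z = y := by
          by_contra hne
          rw [Finsupp.mem_support_iff, Finsupp.single_eq_of_ne (by simpa using hne)] at hz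
          exact hz rfl
        rw [this]
        exact ((hb j).2.2.2.1 y hy).mono hle
      · rw [Finsupp.sum_single_index (by simp)]
        simp
  | zero => exact ⟨0, AddSubgroup.zero_mem _, 0, by simp, by simp⟩
  | add x y _ _ hx hy =>
    obtain ⟨g, hg, c, hc, rfl⟩ := hx
    obtain ⟨g', hg', c', hc', rfl⟩ := hy
    refine ⟨g + g', AddSubgroup.add_mem _ hg hg', c + c', ?_, ?_⟩
    · intro z hz
      rcases Finset.mem_union.1 (Finsupp.support_add hz) with h | h
      · exact hc z h
      · exact hc' z h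
    · rw [Finsupp.sum_add_index' (by simp) (by intro z m n; exact add_smul m n (emb z))]
      abel
  | neg x _ hx =>
    obtain ⟨g, hg, c, hc, rfl⟩ := hx
    refine ⟨-g, AddSubgroup.neg_mem _ hg, -c, ?_, ?_⟩
    · intro z hz
      rw [Finsupp.support_neg] at hz
      exact hc z hz
    · rw [Finsupp.sum_neg_index (by simp)]
      have h1 : c.sum (fun y a => -a • emb y) = - c.sum (fun y a => a • emb y) := by
        unfold Finsupp.sum
        rw [← Finset.sum_neg_distrib]
        apply Finset.sum_congr rfl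
        intro z _
        exact neg_smul _ _
      rw [h1]
      abel

theorem selection_of_task {d : I → ℕ} {u : (i : I) → ℕ → ℕ → Set (Fin (d i) → X)} {b : I → Dat}
    (hb : ∀ i, Req d u i (fun j _ => b j) (b i)) (i : I)
    (hω : ∀ n, ∀ F : Set (Fin (d i) → X), F.Finite → (∀ x ∈ F, ∀ l, x l ∈ GG b) →
      ∃ m, F ⊆ u i n m) :
    ∃ f : ℕ → ℕ, ∀ x : Fin (d i) → X, (∀ l, x l ∈ GG b) → {n | x ∉ u i n (f n)}.Finite := by
  obtain ⟨-, -, -, -, -, htask⟩ := hb i
  rcases htask with ⟨f, hf⟩ | ⟨n, F, hF, hFX, hFm⟩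
  · refine ⟨f, ?_⟩
    intro x hx
    choose g hg c hc hxc using fun l => decompose hb i (hx l)
    have h1 := hf g hg c hc
    have h2 : lin g c = x := by
      funext l
      exact (hxc l).symm
    rw [h2] at h1
    exact h1
  · exfalso
    obtain ⟨m, hm⟩ := hω n F hF (by
      intro x hx l
      have h1 := hFX x hx l
      have h2 : AddSubgroup.closure (((before i (fun j _ => b j) : AddSubgroup X) : Set X) ∪
          emb '' (b i).2) ≤ GG b := by
        rw [AddSubgroup.closure_le]
        rintro z (hz | ⟨y, hy, rfl⟩)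
        · exact before_le b i hz
        · exact AddSubgroup.subset_closure ⟨i, y, hy, rfl⟩
      exact h2 h1)
    exact hFm m hm

/-- the group has at least as many elements as there are stages -/
theorem mk_le {d : I → ℕ} {u : (i : I) → ℕ → ℕ → Set (Fin (d i) → X)} {b : I → Dat}
    (hb : ∀ i, Req d u i (fun j _ => b j) (b i)) : Cardinal.mk I ≤ Cardinal.mk (GG b) := by
  have h1 : ∀ i, ∃ y ∈ (b i).2, emb y ∉ before i (fun j _ => b j) := fun i => (hb i).2.2.2.2.1
  choose y hy1 hy2 using h1
  refine Cardinal.mk_le_of_injective (f := fun i => (⟨emb (y i),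
    AddSubgroup.subset_closure ⟨i, y i, hy1 i, rfl⟩⟩ : GG b)) ?_
  have hlt : ∀ i j, i < j → emb (y i) ≠ emb (y j) := by
    intro i j hij h
    apply hy2 j
    rw [← h]
    exact AddSubgroup.subset_closure ⟨i, hij, y i, hy1 i, rfl⟩
  intro i j hij
  have h2 : emb (y i) = emb (y j) := congrArg Subtype.val hij
  rcases lt_trichotomy i j with h | h | h
  · exact absurd h2 (hlt i j h)
  · exact h
  · exact absurd h2.symm (hlt j i h)

end Rec

end Pool.Agent.W912.BG
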